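import Pool.Agent.helper57.LQ.SpecC

set_option autoImplicit false

open Finset PowerSeries

noncomputable section

namespace Pool.Agent.LQ

theorem OTH_c1 (n : ℕ) (f : FF) : coeff 1 (T n f) = coeff n f := by
  rw [coeff_T]
  simp

theorem OTH_dvd_cop {a b : ℕ} (h : a ∣ b) (hb : b.Coprime 6) : a.Coprime 6 :=
  Nat.Coprime.coprime_dvd_left h hb

theorem OTH_sq {n : ℕ} (h : n.Coprime 6) : n ^ 2 % 24 = 1 := by
  have h2 : ¬ 2 ∣ n := fun h' => by
    have := Nat.dvd_gcd h' (show 2 ∣ 6 by norm_num)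
    rw [h] at this
    omega
  have h3 : ¬ 3 ∣ n := fun h' => by
    have := Nat.dvd_gcd h' (show 3 ∣ 6 by norm_num)
    rw [h] at this
    omega
  have h4 : n % 24 = 1 ∨ n % 24 = 5 ∨ n % 24 = 7 ∨ n % 24 = 11 ∨ n % 24 = 13 ∨ n % 24 = 17 ∨
      n % 24 = 19 ∨ n % 24 = 23 := by omega
  rw [Nat.pow_mod]
  rcases h4 with h | h | h | h | h | h | h | h <;> rw [h]

theorem OTH_cop7 {n : ℕ} (h : n % 24 = 7) : n.Coprime 6 := by
  have h1 : n % 6 = 1 := by omega
  rw [Nat.coprime_iff_gcd_eq_one, Nat.gcd_comm, Nat.gcd_rec, h1]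
  norm_num

theorem OTH_cop1 {n : ℕ} (h : n % 24 = 1) : n.Coprime 6 := by
  have h1 : n % 6 = 1 := by omega
  rw [Nat.coprime_iff_gcd_eq_one, Nat.gcd_comm, Nat.gcd_rec, h1]
  norm_num

/-- Exponents of `T n f`. -/
theorem OTH_exp {n c : ℕ} (hn : n.Coprime 6) {f : FF}
    (hf : ∀ m : ℕ, coeff m f ≠ 0 → m % 24 = c % 24) (m : ℕ) (h : coeff m (T n f) ≠ 0) :
    m % 24 = (n * c) % 24 := by
  rw [coeff_T] at h
  obtain ⟨d, hd, hd2⟩ := Finset.exists_ne_zero_of_sum_ne_zero h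
  have hd3 : d ∣ Nat.gcd m n := Nat.dvd_of_mem_divisors hd
  have hdm : d ∣ m := hd3.trans (Nat.gcd_dvd_left _ _)
  have hdn : d ∣ n := hd3.trans (Nat.gcd_dvd_right _ _)
  obtain ⟨m', rfl⟩ := hdm
  obtain ⟨n', rfl⟩ := hdn
  have hd0 : 0 < d := by
    rcases Nat.eq_zero_or_pos d with h0 | h0
    · exfalso
      rw [h0] at hn
      simp at hn
    · exact h0
  have h1 : d * m' * (d * n') / d ^ 2 = m' * n' := by
    rw [show d * m' * (d * n') = m' * n' * d ^ 2 by ring]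
    exact Nat.mul_div_cancel _ (by positivity)
  rw [h1] at hd2
  have h2 := hf _ hd2
  have h3 : n' ^ 2 % 24 = 1 := OTH_sq (OTH_dvd_cop (Dvd.intro_left d rfl) hn)
  have h4 : (d * n' * c) % 24 = (d * n' * (m' * n')) % 24 := by
    rw [Nat.mul_mod, ← h2, ← Nat.mul_mod]
  rw [h4, show d * n' * (m' * n') = d * m' * n' ^ 2 by ring, Nat.mul_mod (d * m') (n' ^ 2), h3]
  omega

theorem OTH_mem {n : ℕ} (hn : n.Coprime 6) : T n ∈ TT 6 := Submodule.subset_span ⟨n, hn, rfl⟩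

/-- The space spanned by the `tt ^ i`, `i < K`, `i = 7 mod 24`. -/
def OTH_W (K : ℕ) : Submodule (ZMod 2) FF :=
  Submodule.span (ZMod 2) {f : FF | ∃ j : ℕ, (j < K ∧ j % 24 = 7) ∧ f = tt ^ j}

theorem OTH_W_le (K : ℕ) : OTH_W K ≤ VV 6 tt K := by
  apply Submodule.span_mono
  rintro f ⟨i, ⟨hi, h7⟩, rfl⟩
  exact ⟨i, hi, OTH_cop7 h7, rfl⟩

/-- Elements of `VV 6 tt K` are sums of powers. -/
theorem OTH_sum (hGRD : GRD_stmt) (K : ℕ) (f : FF) (hf : f ∈ VV 6 tt K) :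
    ∃ J : Finset ℕ, (∀ j ∈ J, j < K ∧ j.Coprime 6) ∧ f = ∑ j ∈ J, tt ^ j := by
  apply hGRD.2.2 (fun j => j < K ∧ j.Coprime 6) tt f
  have h : {f : FF | ∃ j : ℕ, (j < K ∧ j.Coprime 6) ∧ f = tt ^ j} =
      {f : FF | ∃ i : ℕ, i < K ∧ i.Coprime 6 ∧ f = tt ^ i} := by
    ext f
    constructor
    · rintro ⟨j, ⟨h1, h2⟩, h3⟩
      exact ⟨j, h1, h2, h3⟩
    · rintro ⟨j, h1, h2, h3⟩
      exact ⟨j, ⟨h1, h2⟩, h3⟩
  rw [h]
  exact hf

/-- `T 7` is injective on `W`. -/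
theorem OTH_inj (hFUN : FUN_stmt) (hGN6 : GN6_stmt) (hGRD : GRD_stmt) (hHT7 : HT7_stmt) (K : ℕ)
    (f : FF) (hf : f ∈ OTH_W K) (h0 : T 7 f = 0) : f = 0 := by
  obtain ⟨J, hJ, rfl⟩ := hGRD.2.2 (fun j => j < K ∧ j % 24 = 7) tt f hf
  rcases Finset.eq_empty_or_nonempty J with h | h
  · rw [h]
    simp
  exfalso
  set M := J.max' h with hM
  have hMJ : M ∈ J := Finset.max'_mem J h
  have hM7 : M % 24 = 7 := (hJ M hMJ).2
  have h1 : T 7 (∑ j ∈ J, tt ^ j) + tt ^ (M - 6) ∈ VV 6 tt (M - 6) := by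
    rw [← Finset.add_sum_erase J _ hMJ, map_add, map_sum]
    have h2 : T 7 (tt ^ M) + tt ^ (M - 6) ∈ VV 6 tt (M - 6) := by
      have h3 := hHT7 M (OTH_cop7 hM7)
      have h4 : M % 12 = 7 ∨ M % 12 = 11 := by omega
      rw [if_pos h4] at h3
      exact h3
    have h5 : ∑ j ∈ J.erase M, T 7 (tt ^ j) ∈ VV 6 tt (M - 6) := by
      apply Submodule.sum_mem
      intro j hj
      have hjJ := Finset.mem_of_mem_erase hj
      have hj7 : j % 24 = 7 := (hJ j hjJ).2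
      have hjM : j < M := lt_of_le_of_ne (Finset.le_max' J j hjJ) (Finset.ne_of_mem_erase hj)
      have h3 := hHT7 j (OTH_cop7 hj7)
      have h4 : j % 12 = 7 ∨ j % 12 = 11 := by omega
      rw [if_pos h4] at h3
      have h6 : tt ^ (j - 6) ∈ VV 6 tt (M - 6) :=
        Submodule.subset_span ⟨j - 6, by omega, OTH_cop1 (by omega), rfl⟩
      have h7 : T 7 (tt ^ j) + tt ^ (j - 6) ∈ VV 6 tt (M - 6) := VV_mono 6 tt (by omega) h3
      have h8 := Submodule.sub_mem _ h7 h6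
      rwa [add_sub_cancel_right] at h8
    have h9 := Submodule.add_mem _ h2 h5
    have h10 : T 7 (tt ^ M) + ∑ j ∈ J.erase M, T 7 (tt ^ j) + tt ^ (M - 6) =
        T 7 (tt ^ M) + tt ^ (M - 6) + ∑ j ∈ J.erase M, T 7 (tt ^ j) := by ring
    rw [h10]
    exact h9
  rw [h0, zero_add] at h1
  exact (hFUN 6 tt hGN6).2.2.2.1 (M - 6) (OTH_cop1 (by omega)) h1

/-- The elements of `VV` with exponents `7 mod 24` are in `W`. -/
theorem OTH_inW (hGRD : GRD_stmt) (K c : ℕ) (f : FF) (hf : f ∈ VV 6 tt K)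
    (hc : ∀ m : ℕ, coeff m f ≠ 0 → m % 24 = c % 24) (hc7 : c % 24 = 7) : f ∈ OTH_W K := by
  obtain ⟨J, hJ, rfl⟩ := OTH_sum hGRD K f hf
  have h1 := hGRD.1 J c hc
  apply Submodule.sum_mem
  intro j hj
  exact Submodule.subset_span ⟨j, ⟨(hJ j hj).1, by rw [h1 j hj, hc7]⟩, rfl⟩

theorem OTH_Wexp (hTGR : TGR_stmt) (K : ℕ) (f : FF) (hf : f ∈ OTH_W K) (m : ℕ)
    (hm : coeff m f ≠ 0) : m % 24 = 7 % 24 := by
  revert hm
  rw [not_imp_comm]
  intro hm
  have h : OTH_W K ≤ LinearMap.ker (coeff m : FF →ₗ[ZMod 2] ZMod 2) := by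
    apply Submodule.span_le.2
    rintro g ⟨j, ⟨_, hj⟩, rfl⟩
    rw [SetLike.mem_coe, LinearMap.mem_ker]
    by_contra h
    have := hTGR.2.2.2.1 j m h
    omega
  exact LinearMap.mem_ker.1 (h hf)

theorem OTH (hGN6 : GN6_stmt) (hALG : ALG_stmt) (hAF1 : AF1_stmt) (hAF3 : AF3_stmt)
    (hFUN : FUN_stmt) (hGRD : GRD_stmt) (hTGR : TGR_stmt) (hHT7 : HT7_stmt) (hQ7 : Q7_stmt) :
    OTH_stmt := by
  intro q hq hq7 K0
  obtain ⟨K, hK0, hK8⟩ : ∃ K : ℕ, K0 ≤ K ∧ 8 ≤ K := ⟨max K0 8, le_max_left _ _, le_max_right _ _⟩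
  have hG : Gen 6 tt := hGN6
  have hqc : q.Coprime 6 := OTH_cop7 hq7
  have h7c : Nat.Coprime 7 6 := by norm_num
  have hT7 : T 7 ∈ TT 6 := OTH_mem h7c
  have hTq : T q ∈ TT 6 := OTH_mem hqc
  obtain ⟨h1TT, hmul⟩ := hALG 6 (by norm_num)
  -- the linear map
  let L : OTH_W K →ₗ[ZMod 2] FF := (T 7).domRestrict (OTH_W K)
  have hL : LinearMap.ker L = ⊥ := by
    rw [LinearMap.ker_eq_bot']
    intro x hx
    apply Subtype.ext
    exact OTH_inj hFUN hGN6 hGRD hHT7 K x.1 x.2 hx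
  obtain ⟨g, hg⟩ := LinearMap.exists_leftInverse_of_injective L hL
  let φ : FF →ₗ[ZMod 2] ZMod 2 :=
    (coeff q : FF →ₗ[ZMod 2] ZMod 2).comp ((OTH_W K).subtype.comp g)
  have hφ : ∀ f ∈ OTH_W K, φ (T 7 f) = coeff q f := by
    intro f hf
    have h1 : g (L ⟨f, hf⟩) = ⟨f, hf⟩ := by
      have := LinearMap.congr_fun hg ⟨f, hf⟩
      exact this
    show coeff q ((g (T 7 f) : OTH_W K) : FF) = coeff q f
    have h2 : L ⟨f, hf⟩ = T 7 f := rfl
    rw [← h2, h1]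
  obtain ⟨S, hS, hSφ⟩ := (hFUN 6 tt hG).2.2.1 K φ
  set S1 := S.filter (fun n => n % 24 = 1) with hS1
  set U : Module.End (ZMod 2) FF := ∑ n ∈ S1, T n with hU
  have hUTT : U ∈ TT 6 := by
    apply Submodule.sum_mem
    intro n hn
    exact OTH_mem (hS n (Finset.mem_filter.1 hn).1).2
  have hU1 : ∀ h : FF, coeff 1 (U h) = ∑ n ∈ S1, coeff n h := by
    intro h
    rw [hU, LinearMap.sum_apply, map_sum]
    exact Finset.sum_congr rfl (fun n _ => OTH_c1 n h)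
  -- the formula on W
  have hstar : ∀ f ∈ OTH_W K, coeff q f = coeff 1 (U (T 7 f)) := by
    intro f hf
    have hfV : f ∈ VV 6 tt K := OTH_W_le K hf
    have h7V : T 7 f ∈ VV 6 tt K := hAF3.2 6 tt hG (T 7) hT7 K f hfV
    rw [← hφ f hf, hSφ _ h7V, hU1, hS1, Finset.sum_filter]
    apply Finset.sum_congr rfl
    intro n _
    split_ifs with h
    · rfl
    · by_contra h2
      have h3 := OTH_exp h7c (OTH_Wexp hTGR K f hf) n h2
      omega
  -- the main claim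
  have hmain : ∀ f ∈ VV 6 tt K, T q f = (T 7 * U) f := by
    have hTU : T 7 * U ∈ TT 6 := (hmul _ hT7 _ hUTT).1
    have hcomm : T 7 * U = U * T 7 := (hmul _ hT7 _ hUTT).2
    have hgen : ∀ i : ℕ, i < K → i.Coprime 6 → T q (tt ^ i) = (T 7 * U) (tt ^ i) := by
      intro i hi hic
      ext n
      by_cases hn : n.Coprime 6
      · rw [hAF1 6 (by norm_num) (T q) hTq (tt ^ i) n hn, hAF1 6 (by norm_num) _ hTU (tt ^ i) n hn,
          OTH_c1, hcomm, Module.End.mul_apply]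
        have hfV : tt ^ i ∈ VV 6 tt K := Submodule.subset_span ⟨i, hi, hic, rfl⟩
        have hhV : T n (tt ^ i) ∈ VV 6 tt K := hAF3.2 6 tt hG (T n) (OTH_mem hn) K _ hfV
        have hhe : ∀ m : ℕ, coeff m (T n (tt ^ i)) ≠ 0 → m % 24 = (n * i) % 24 :=
          fun m hm => OTH_exp hn (fun m hm => hTGR.2.2.2.1 i m hm) m hm
        by_cases hc : (n * i) % 24 = 7
        · exact hstar _ (OTH_inW hGRD K (n * i) _ hhV hhe hc)
        · have hz : coeff q (T n (tt ^ i)) = 0 := by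
            by_contra h2
            have := hhe q h2
            omega
          rw [hz, hU1]
          symm
          apply Finset.sum_eq_zero
          intro m hm
          by_contra h2
          have h3 := OTH_exp h7c hhe m h2
          have h4 : m % 24 = 1 := (Finset.mem_filter.1 hm).2
          have h5 : (7 * (n * i)) % 24 = 1 := by omega
          apply hc
          omega
      · have hsup : ∀ m : ℕ, coeff m (tt ^ i) ≠ 0 → m.Coprime 6 := fun m hm => hG.sup i hic m hm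
        have h1 : coeff n (T q (tt ^ i)) = 0 := by
          by_contra h2
          exact hn (hAF3.1 6 (T q) hTq (tt ^ i) hsup n h2)
        have h2 : coeff n ((T 7 * U) (tt ^ i)) = 0 := by
          by_contra h2
          exact hn (hAF3.1 6 _ hTU (tt ^ i) hsup n h2)
        rw [h1, h2]
    have hle : VV 6 tt K ≤ LinearMap.eqLocus (T q) (T 7 * U) := by
      apply Submodule.span_le.2
      rintro f ⟨i, hi, hic, rfl⟩
      exact hgen i hi hic
    intro f hf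
    exact hle hf
  have hρ : ∀ f : FF, f + (U + 1) f = U f := by
    intro f
    rw [LinearMap.add_apply, Module.End.one_apply, add_comm (U f) f, ← add_assoc, add_self_FF,
      zero_add]
  refine ⟨U + 1, Submodule.add_mem _ hUTT h1TT, ?_, ?_⟩
  · have hV1 : VV 6 tt 1 = ⊥ := by
      rw [VV, Submodule.span_eq_bot]
      rintro f ⟨i, hi, hic, rfl⟩
      exfalso
      have hi0 : i = 0 := by omega
      rw [hi0] at hic
      norm_num at hic
    have h7 := hHT7 7 h7c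
    rw [if_pos (Or.inl (by norm_num)), show 7 - 6 = 1 from rfl, hV1, Submodule.mem_bot, pow_one]
      at h7
    have h8 : T 7 (tt ^ 7) = tt := by
      calc T 7 (tt ^ 7) = T 7 (tt ^ 7) + (tt + tt) := by rw [add_self_FF, add_zero]
        _ = (T 7 (tt ^ 7) + tt) + tt := by rw [add_assoc]
        _ = tt := by rw [h7, zero_add]
    have h9 : tt ^ 7 ∈ OTH_W K := Submodule.subset_span ⟨7, ⟨by omega, by norm_num⟩, rfl⟩
    have h10 := hstar _ h9
    rw [h8, hQ7 q hq hq7] at h10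
    rw [LinearMap.add_apply, Module.End.one_apply, map_add, ← h10, hG.c1]
    decide
  · intro f hf
    rw [hρ f, hmain f (VV_mono 6 tt hK0 hf), Module.End.mul_apply]

end Pool.Agent.LQ
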